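import Mathlib
import Pool.Agent.H.MP_2f4f34_gt.B

open Set Filter Topology Cardinal

namespace Pool.Agent.Results.MP_2f4f34_gt.CountableLower

theorem result (G : Type) [Group G] [Countable G] [t : TopologicalSpace G] [IsTopologicalGroup G]
    [T2Space G] [FrechetUrysohnSpace G] (hnd : ¬ DiscreteTopology G) (S : Set (ℕ → G))
    (hS : IsLeast {s : TopologicalSpace G | @IsTopologicalGroup G s _ ∧ @T2Space G s ∧
      ∀ u ∈ S, Tendsto u atTop (@nhds G s 1)} t) :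
    ∃ D : Set (ℕ → ℕ), #D ≤ #S ∧ ¬ ∃ g : ℕ → ℕ, ∀ f ∈ D, ∀ᶠ n in atTop, f n ≤ g n := by
  by_contra h
  push Not at h
  exact H.MP_2f4f34_gt.B.main t hnd S hS.1.2.2 (fun s a b c => hS.2 ⟨a, b, c⟩) h

end Pool.Agent.Results.MP_2f4f34_gt.CountableLower
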