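import Mathlib
import Pool.Agent.H.MP_2f4f34_gt.A

open Set Filter Topology Cardinal

namespace Pool.Agent.Results.MP_2f4f34_gt.Exists

theorem result : ∃ (G : Type) (_ : Group G) (t : TopologicalSpace G),
    IsTopologicalGroup G ∧ T2Space G ∧ FrechetUrysohnSpace G ∧
    IsLeast {k : Cardinal | ∃ S : Set (ℕ → G), #S = k ∧
      IsLeast {s : TopologicalSpace G | @IsTopologicalGroup G s _ ∧ @T2Space G s ∧
        ∀ u ∈ S, Tendsto u atTop (@nhds G s 1)} t} ℵ₁ := by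
  have low : ∀ S : Set (ℕ → H.MP_2f4f34_gt.G),
      IsLeast {s : TopologicalSpace H.MP_2f4f34_gt.G | @IsTopologicalGroup _ s _ ∧ @T2Space _ s ∧
        ∀ u ∈ S, Tendsto u atTop (@nhds _ s 1)} H.MP_2f4f34_gt.top → ℵ₁ ≤ #S := by
    intro S hS
    by_contra h
    rw [not_le, ← succ_aleph0, Order.lt_succ_iff, le_aleph0_iff_set_countable] at h
    obtain ⟨s, h1, h2, h3, h4⟩ := H.MP_2f4f34_gt.not_countable S h hS.1.2.2
    exact h4 (hS.2 ⟨h1, h2, h3⟩)
  have up : IsLeast {s : TopologicalSpace H.MP_2f4f34_gt.G | @IsTopologicalGroup _ s _ ∧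
      @T2Space _ s ∧ ∀ u ∈ range H.MP_2f4f34_gt.s, Tendsto u atTop (@nhds _ s 1)}
      H.MP_2f4f34_gt.top := by
    refine ⟨⟨inferInstance, inferInstance, ?_⟩, ?_⟩
    · rintro _ ⟨a, rfl⟩
      exact H.MP_2f4f34_gt.s_null a
    · rintro s ⟨hs, -, h⟩
      exact H.MP_2f4f34_gt.least s hs fun a => h _ ⟨a, rfl⟩
  refine ⟨H.MP_2f4f34_gt.G, inferInstance, H.MP_2f4f34_gt.top, inferInstance, inferInstance,
    inferInstance, ⟨range H.MP_2f4f34_gt.s, le_antisymm ?_ (low _ up), up⟩, ?_⟩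
  · refine mk_range_le.trans ?_
    rw [Lib.helper24.Succ.mk_W, succ_aleph0]
  · rintro _ ⟨S, rfl, hS⟩
    exact low S hS

end Pool.Agent.Results.MP_2f4f34_gt.Exists
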